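import Pool.Agent.N582.RBMain

/-!
# The unweighted red-blue `s`-`t` cut problem is NP-hard

The reduction starts from the independent set problem. Let `G` be a graph on `n` vertices and let
`1 ≤ j ≤ n` be the wanted size. Take two red cliques `S` and `T` of size `L > n (n + 1) + 1`; the
vertex `s` is the first one of `S` and `t` is the first one of `T`. Every vertex `v` of `G` is joined
by red edges to its non-neighbours in `G`, to `n + 1` vertices of `S`, and to `1 + deg v` vertices of
`T \ {t}`, and by a blue edge to `t`. The bounds are `r = n (n + 1) - j ^ 2` and `b = j`.

A cut with at most `r` red edges cannot split `S` or `T`; if `U` is the set of the vertices of `G` on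
the side of `s`, then the cut has `|U|` blue edges and `n (n + 1) - |U| - f` red ones, where `f` is
the number of ordered pairs of different non-adjacent vertices of `U`. As `f ≤ |U| (|U| - 1)`, the
bounds say that `|U| = j` and that `U` is independent.
-/

set_option autoImplicit false

namespace Pool.Agent.Results.MP_ad21dd_lc.NPHard

open Pool.Agent.NPC Pool.Agent.N582.RB

/-- **The unweighted red-blue `s`-`t` cut problem for finite simple undirected graphs is NP-hard
under polynomial-time many-one reductions.** -/
theorem result : NPHardP RedBlueCut := npHard

end Pool.Agent.Results.MP_ad21dd_lc.NPHard
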